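import Mathlib

set_option autoImplicit false

/-!
# Point sets with few parallel hyperplanes on each side, up to `2 m` points in dimension `m`

A finite set `S` in `ℝ ^ m` with `m + 1 ≤ |S| ≤ 2 m`, not in a hyperplane, is admissible if and only if it
is unimodular: all nondegenerate `m`-simplices with vertices in `S` have the same volume. Unimodular sets of
any size are admissible. Examples: the vertices of a cross-polytope, of a prism over a simplex.
-/

namespace Pool.Agent.Results.MP_4c9d8f_co.UpToTwiceTheDimension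

open Finset

variable {m : ℕ}

/-- The numbers `d > c` such that the hyperplane `ℓ = d` passes through a point of `S`. -/
noncomputable def above (S : Finset (Fin m → ℝ)) (ℓ : (Fin m → ℝ) →ₗ[ℝ] ℝ) (c : ℝ) : Finset ℝ :=
  (S.image ℓ).filter (fun d => c < d)

/-- The numbers `d < c` such that the hyperplane `ℓ = d` passes through a point of `S`. -/
noncomputable def below (S : Finset (Fin m → ℝ)) (ℓ : (Fin m → ℝ) →ₗ[ℝ] ℝ) (c : ℝ) : Finset ℝ :=
  (S.image ℓ).filter (fun d => d < c)

/-- The hyperplane `ℓ = c` is determined by `S`: it contains `m` affinely independent points of `S`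
(so it is their affine hull). -/
def Determined (S : Finset (Fin m → ℝ)) (ℓ : (Fin m → ℝ) →ₗ[ℝ] ℝ) (c : ℝ) : Prop :=
  ℓ ≠ 0 ∧ ∃ p : Fin m → (Fin m → ℝ), AffineIndependent ℝ p ∧ ∀ i, p i ∈ S ∧ ℓ (p i) = c

/-- On each side of each hyperplane determined by `S` at most `(|S| - 1) / m` (integer part)
hyperplanes parallel to it pass through points of `S`. -/
def Admissible (S : Finset (Fin m → ℝ)) : Prop :=
  ∀ (ℓ : (Fin m → ℝ) →ₗ[ℝ] ℝ) (c : ℝ), Determined S ℓ c →
    max (above S ℓ c).card (below S ℓ c).card ≤ (S.card - 1) / m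

/-- All points of `S` have barycentric coordinates in `{-1, 0, 1}` with respect to every
nondegenerate simplex with vertices in `S`. -/
def Unimodular (S : Finset (Fin m → ℝ)) : Prop :=
  ∀ q : Fin (m + 1) → (Fin m → ℝ), AffineIndependent ℝ q → (∀ i, q i ∈ S) →
    ∀ μ : Fin (m + 1) → ℝ, ∑ i, μ i = 1 → ∑ i, μ i • q i ∈ S → ∀ i, μ i = -1 ∨ μ i = 0 ∨ μ i = 1

/-- The matrix with the rows `(1, q i)`. -/
def mat (q : Fin (m + 1) → (Fin m → ℝ)) : Matrix (Fin (m + 1)) (Fin (m + 1)) ℝ :=
  Matrix.of fun i => (Fin.cons 1 (q i) : Fin (m + 1) → ℝ)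

/-- The determinant of the matrix with the rows `(1, q i)`: up to the sign this is `m!` times the
volume of the simplex with the vertices `q 0, ..., q m`. -/
noncomputable def vol (q : Fin (m + 1) → (Fin m → ℝ)) : ℝ := (mat q).det

/-- All nondegenerate simplices with vertices in `S` have the same volume. -/
def EqualVolumes (S : Finset (Fin m → ℝ)) : Prop :=
  ∀ q q' : Fin (m + 1) → (Fin m → ℝ), AffineIndependent ℝ q → AffineIndependent ℝ q' →
    (∀ i, q i ∈ S) → (∀ i, q' i ∈ S) → |vol q| = |vol q'|

theorem ind_iff {k : ℕ} (q : Fin k → (Fin m → ℝ)) : AffineIndependent ℝ q ↔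
    ∀ w : Fin k → ℝ, ∑ i, w i = 0 → ∑ i, w i • q i = 0 → w = 0 := by
  classical
  rw [affineIndependent_iff]
  constructor
  · intro h w h1 h2
    funext i
    exact h univ w h1 h2 i (mem_univ i)
  · intro h s w h1 h2 i hi
    have h3 := h (fun j => if j ∈ s then w j else 0) (by
      rw [Finset.sum_ite_mem, univ_inter]; exact h1) (by
      simp only [ite_smul, zero_smul]
      rw [Finset.sum_ite_mem, univ_inter]; exact h2)
    have h4 := congrFun h3 i
    simpa [hi] using h4

/-- the homogeneous coordinates are linearly independent -/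
theorem lin_ind {q : Fin (m + 1) → (Fin m → ℝ)} (hq : AffineIndependent ℝ q) :
    LinearIndependent ℝ (fun i => ((1 : ℝ), q i)) := by
  rw [Fintype.linearIndependent_iff]
  intro w hw i
  have h1 : ∑ i, w i = 0 := by
    have := congrArg Prod.fst hw
    simpa [Prod.fst_sum] using this
  have h2 : ∑ i, w i • q i = 0 := by
    have := congrArg Prod.snd hw
    simpa [Prod.snd_sum] using this
  exact congrFun ((ind_iff q).1 hq w h1 h2) i

theorem span_top {q : Fin (m + 1) → (Fin m → ℝ)} (hq : AffineIndependent ℝ q) :
    ⊤ ≤ Submodule.span ℝ (Set.range fun i => ((1 : ℝ), q i)) := by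
  refine le_of_eq ((lin_ind hq).span_eq_top_of_card_eq_finrank ?_).symm
  rw [Module.finrank_prod, Module.finrank_self, Module.finrank_fin_fun, Fintype.card_fin, add_comm]

/-- barycentric coordinates -/
theorem coords {q : Fin (m + 1) → (Fin m → ℝ)} (hq : AffineIndependent ℝ q) (s : Fin m → ℝ) :
    ∃ μ : Fin (m + 1) → ℝ, ∑ i, μ i = 1 ∧ ∑ i, μ i • q i = s := by
  have h : ((1 : ℝ), s) ∈ Submodule.span ℝ (Set.range fun i => ((1 : ℝ), q i)) :=
    span_top hq Submodule.mem_top
  obtain ⟨μ, hμ⟩ := (Submodule.mem_span_range_iff_exists_fun ℝ).1 h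
  refine ⟨μ, ?_, ?_⟩
  · have := congrArg Prod.fst hμ
    simpa [Prod.fst_sum] using this
  · have := congrArg Prod.snd hμ
    simpa [Prod.snd_sum] using this

/-- the barycentric coordinate with number `i` as an affine function -/
theorem coord_fun {q : Fin (m + 1) → (Fin m → ℝ)} (hq : AffineIndependent ℝ q) (i : Fin (m + 1)) :
    ∃ (ℓ : (Fin m → ℝ) →ₗ[ℝ] ℝ) (c : ℝ), (∀ j, j ≠ i → ℓ (q j) = c) ∧ ℓ (q i) = c + 1 := by
  let b := Module.Basis.mk (lin_ind hq) (span_top hq)
  refine ⟨(b.coord i).comp (LinearMap.inr ℝ ℝ (Fin m → ℝ)), -(b.coord i (1, 0)), ?_, ?_⟩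
  · intro j hj
    have h1 : b.coord i (1, q j) = 0 := by
      have : b j = (1, q j) := Module.Basis.mk_apply _ _ j
      rw [← this, Module.Basis.coord_apply, Module.Basis.repr_self, Finsupp.single_eq_of_ne hj.symm]
    have h2 : ((1 : ℝ), q j) = (1, 0) + (0, q j) := by simp
    rw [h2, map_add] at h1
    show b.coord i (0, q j) = _
    linarith
  · have h1 : b.coord i (1, q i) = 1 := by
      have : b i = (1, q i) := Module.Basis.mk_apply _ _ i
      rw [← this, Module.Basis.coord_apply, Module.Basis.repr_self, Finsupp.single_eq_same]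
    have h2 : ((1 : ℝ), q i) = (1, 0) + (0, q i) := by simp
    rw [h2, map_add] at h1
    show b.coord i (0, q i) = _
    linarith

/-- replacing a vertex -/
theorem ind_update {q : Fin (m + 1) → (Fin m → ℝ)} (hq : AffineIndependent ℝ q)
    {μ : Fin (m + 1) → ℝ} (h1 : ∑ i, μ i = 1) (j : Fin (m + 1)) (hj : μ j ≠ 0) :
    AffineIndependent ℝ (Function.update q j (∑ i, μ i • q i)) := by
  classical
  rw [ind_iff]
  intro w hw1 hw2
  have e1 : ∀ i, Function.update q j (∑ i, μ i • q i) i = if i = j then ∑ i, μ i • q i else q i :=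
    fun i => by by_cases h : i = j <;> simp [h]
  have e2 : ∑ i, w i • Function.update q j (∑ i, μ i • q i) i
      = ∑ i, ((if i = j then 0 else w i) + w j * μ i) • q i := by
    have : ∀ i, w i • Function.update q j (∑ i, μ i • q i) i =
        (if i = j then w j • ∑ i, μ i • q i else 0) + (if i = j then 0 else w i) • q i := by
      intro i
      rw [e1]
      by_cases h : i = j
      · subst h; simp
      · simp [h]
    simp only [this, add_smul, sum_add_distrib]
    rw [Finset.sum_ite_eq' univ j, if_pos (mem_univ j), smul_sum, add_comm]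
    simp only [smul_smul]
  rw [e2] at hw2
  have h3 := (ind_iff q).1 hq _ (by
    rw [sum_add_distrib, ← mul_sum, h1, mul_one]
    have : ∑ i, (if i = j then 0 else w i) = ∑ i, w i - w j := by
      have h5 : ∀ i, (if i = j then 0 else w i) = w i - (if i = j then w j else 0) := by
        intro i
        by_cases h : i = j
        · subst h; simp
        · simp [h]
      simp only [h5, sum_sub_distrib]
      rw [Finset.sum_ite_eq' univ j, if_pos (mem_univ j)]
    rw [this, hw1]
    ring) hw2
  have h4 : w j = 0 := by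
    have := congrFun h3 j
    simpa [hj] using this
  funext i
  have := congrFun h3 i
  by_cases h : i = j
  · subst h; exact h4
  · simpa [h, h4] using this

/-- positive coordinates are `1` -/
theorem stepA {S : Finset (Fin m → ℝ)} (hm : 1 ≤ m) (hS : S.card ≤ 2 * m) (hA : Admissible S)
    {q : Fin (m + 1) → (Fin m → ℝ)} (hq : AffineIndependent ℝ q) (hqS : ∀ i, q i ∈ S)
    {μ : Fin (m + 1) → ℝ} (h1 : ∑ i, μ i = 1) (hs : ∑ i, μ i • q i ∈ S) (i : Fin (m + 1))
    (hi : 0 < μ i) : μ i = 1 := by
  classical
  obtain ⟨ℓ, c, hl, hl1⟩ := coord_fun hq i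
  have hval : ℓ (∑ i, μ i • q i) = c + μ i := by
    rw [map_sum]
    have : ∀ j, ℓ (μ j • q j) = μ j * c + (if j = i then μ i else 0) := by
      intro j
      rw [map_smul, smul_eq_mul]
      by_cases h : j = i
      · subst h; rw [hl1]; simp; ring
      · rw [hl j h]; simp [h]
    simp only [this, sum_add_distrib]
    rw [Finset.sum_ite_eq' univ i, if_pos (mem_univ i), ← sum_mul, h1, one_mul]
  have hdet : Determined S ℓ c := by
    refine ⟨?_, fun j => q (i.succAbove j), ?_, fun j => ⟨hqS _, hl _ (Fin.succAbove_ne i j)⟩⟩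
    · intro h0
      rw [h0] at hl hl1
      have := hl (i.succAbove ⟨0, hm⟩) (Fin.succAbove_ne i _)
      simp only [LinearMap.zero_apply] at this hl1
      linarith
    · exact hq.comp_embedding (Fin.succAboveEmb i)
  have h2 := hA ℓ c hdet
  have h3 : (S.card - 1) / m ≤ 1 := by
    rw [Nat.div_le_iff_le_mul_add_pred hm]
    omega
  have h4 : (above S ℓ c).card ≤ 1 := (le_max_left _ _).trans (h2.trans h3)
  rw [card_le_one] at h4
  have h5 := h4 (ℓ (q i)) (by
    rw [above, mem_filter, hl1]
    exact ⟨mem_image.2 ⟨q i, hqS i, hl1⟩, by linarith⟩) (ℓ (∑ i, μ i • q i)) (by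
    rw [above, mem_filter]
    refine ⟨mem_image_of_mem _ hs, ?_⟩
    rw [hval]
    linarith)
  rw [hl1, hval] at h5
  linarith

theorem uni_of_adm {S : Finset (Fin m → ℝ)} (hm : 1 ≤ m) (hS : S.card ≤ 2 * m)
    (hA : Admissible S) : Unimodular S := by
  classical
  intro q hq hqS μ h1 hs i
  rcases lt_trichotomy (μ i) 0 with h | h | h
  · left
    obtain ⟨j, hj⟩ : ∃ j, 0 < μ j := by
      by_contra hc
      push Not at hc
      have := Finset.sum_nonpos (fun j (_ : j ∈ univ) => hc j)
      linarith
    have hj1 := stepA hm hS hA hq hqS h1 hs j hj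
    have hij : i ≠ j := fun h' => by rw [h'] at h; linarith
    have hq' := ind_update hq h1 j hj.ne'
    have key : ∑ k, (if k = j then (1 : ℝ) else -μ k) •
        Function.update q j (∑ i, μ i • q i) k = q j := by
      have : ∀ k, (if k = j then (1 : ℝ) else -μ k) • Function.update q j (∑ i, μ i • q i) k
          = (if k = j then ((∑ i, μ i • q i) + q j) else 0) - μ k • q k := by
        intro k
        by_cases h' : k = j
        · subst h'; simp [hj1]
        · simp [h']
      simp only [this, sum_sub_distrib]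
      rw [Finset.sum_ite_eq' univ j, if_pos (mem_univ j)]
      simp
    have hsum : ∑ k, (if k = j then (1 : ℝ) else -μ k) = 1 := by
      have : ∀ k, (if k = j then (1 : ℝ) else -μ k) = (if k = j then 2 else 0) - μ k := by
        intro k
        by_cases h' : k = j
        · subst h'; simp [hj1]; norm_num
        · simp [h']
      simp only [this, sum_sub_distrib]
      rw [Finset.sum_ite_eq' univ j, if_pos (mem_univ j), h1]
      norm_num
    have h6 := stepA hm hS hA hq' (fun k => by
      by_cases h' : k = j
      · subst h'; simpa using hs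
      · simpa [h'] using hqS k) hsum (by rw [key]; exact hqS j) i (by simp [hij, h])
    simp only [hij, if_false] at h6
    linarith
  · right; left; exact h
  · right; right; exact stepA hm hS hA hq hqS h1 hs i h

/-- `m` affinely independent points on a hyperplane and a point outside it -/
theorem ind_cons {p : Fin m → (Fin m → ℝ)} (hp : AffineIndependent ℝ p)
    (ℓ : (Fin m → ℝ) →ₗ[ℝ] ℝ) {c : ℝ} (hl : ∀ i, ℓ (p i) = c) {s : Fin m → ℝ} (hs : ℓ s ≠ c) :
    AffineIndependent ℝ (Fin.cons s p : Fin (m + 1) → (Fin m → ℝ)) := by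
  rw [ind_iff]
  intro w h1 h2
  rw [Fin.sum_univ_succ] at h1 h2
  simp only [Fin.cons_zero, Fin.cons_succ] at h2
  have h3 : w 0 * ℓ s + (∑ i : Fin m, w i.succ) * c = 0 := by
    have := congrArg ℓ h2
    rw [map_add, map_sum, map_smul, map_zero, smul_eq_mul] at this
    simp only [map_smul, smul_eq_mul, hl] at this
    rw [← sum_mul] at this
    exact this
  have h4 : w 0 = 0 := by
    have h5 : (∑ i : Fin m, w i.succ) = - w 0 := by linarith
    rw [h5] at h3
    have h6 : w 0 * (ℓ s - c) = 0 := by linarith
    rcases mul_eq_zero.1 h6 with h | h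
    · exact h
    · exact absurd (sub_eq_zero.1 h) hs
  rw [h4, zero_add] at h1
  rw [h4, zero_smul, zero_add] at h2
  have h7 := (ind_iff p).1 hp (fun i => w i.succ) h1 h2
  funext i
  refine Fin.cases h4 (fun j => ?_) i
  exact congrFun h7 j

/-- the value at a point is at most that at another point on the same side -/
theorem same {S : Finset (Fin m → ℝ)} (hU : Unimodular S) {p : Fin m → (Fin m → ℝ)}
    (hp : AffineIndependent ℝ p) (ℓ : (Fin m → ℝ) →ₗ[ℝ] ℝ) {c : ℝ}
    (hl : ∀ i, p i ∈ S ∧ ℓ (p i) = c) {s s' : Fin m → ℝ} (hs : s ∈ S) (hs' : s' ∈ S)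
    (h : 0 < (ℓ s - c) * (ℓ s' - c)) : ℓ s = ℓ s' := by
  have hsc : ℓ s ≠ c := fun h' => by rw [h', sub_self, zero_mul] at h; exact lt_irrefl _ h
  have hq := ind_cons hp ℓ (fun i => (hl i).2) hsc
  obtain ⟨μ, h1, h2⟩ := coords hq s'
  have h3 := hU _ hq (fun i => by
    refine Fin.cases ?_ (fun j => ?_) i
    · exact hs
    · exact (hl j).1) μ h1 (by rw [h2]; exact hs') 0
  have h4 : ℓ s' - c = μ 0 * (ℓ s - c) := by
    rw [Fin.sum_univ_succ] at h1 h2
    simp only [Fin.cons_zero, Fin.cons_succ] at h2
    have := congrArg ℓ h2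
    rw [map_add, map_sum, map_smul, smul_eq_mul] at this
    simp only [map_smul, smul_eq_mul, fun i => (hl i).2] at this
    rw [← sum_mul] at this
    have h5 : (∑ i : Fin m, μ i.succ) = 1 - μ 0 := by linarith
    rw [h5] at this
    linarith
  have h6 : 0 < (ℓ s - c) * (ℓ s - c) := by
    have : ℓ s - c ≠ 0 := sub_ne_zero.2 hsc
    exact mul_self_pos.2 this
  rw [h4] at h
  have h7 : 0 < μ 0 := by
    by_contra hc
    push Not at hc
    nlinarith
  rcases h3 with h | h | h
  · linarith
  · linarith
  · rw [h, one_mul] at h4; linarith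

theorem adm_of_uni {S : Finset (Fin m → ℝ)} (hm : 1 ≤ m) (hn : m + 1 ≤ S.card)
    (hU : Unimodular S) : Admissible S := by
  classical
  rintro ℓ c ⟨_, p, hp, hl⟩
  have h1 : 1 ≤ (S.card - 1) / m := by
    rw [Nat.one_le_div_iff hm]
    omega
  refine le_trans (max_le ?_ ?_) h1
  · rw [card_le_one]
    intro a ha b hb
    rw [above, mem_filter, mem_image] at ha hb
    obtain ⟨⟨s, hs, rfl⟩, h2⟩ := ha
    obtain ⟨⟨s', hs', rfl⟩, h3⟩ := hb
    exact same hU hp ℓ hl hs hs' (mul_pos (by linarith) (by linarith))
  · rw [card_le_one]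
    intro a ha b hb
    rw [below, mem_filter, mem_image] at ha hb
    obtain ⟨⟨s, hs, rfl⟩, h2⟩ := ha
    obtain ⟨⟨s', hs', rfl⟩, h3⟩ := hb
    exact same hU hp ℓ hl hs hs' (mul_pos_of_neg_of_neg (by linarith) (by linarith))

theorem vol_update (q : Fin (m + 1) → (Fin m → ℝ)) {μ : Fin (m + 1) → ℝ} (h1 : ∑ i, μ i = 1)
    (j : Fin (m + 1)) : vol (Function.update q j (∑ i, μ i • q i)) = μ j * vol q := by
  classical
  unfold vol
  rw [← smul_eq_mul, ← Matrix.det_updateRow_sum]
  congr 1
  ext a b
  by_cases h : a = j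
  · subst h
    rw [Matrix.updateRow_self]
    refine Fin.cases ?_ (fun k => ?_) b
    · simp [mat, Finset.sum_apply, h1]
    · simp [mat, Finset.sum_apply]
  · rw [Matrix.updateRow_ne h]
    simp [mat, h]

theorem vol_ne {q : Fin (m + 1) → (Fin m → ℝ)} (hq : AffineIndependent ℝ q) : vol q ≠ 0 := by
  intro h
  obtain ⟨v, hv, hv2⟩ := Matrix.exists_vecMul_eq_zero_iff.2 h
  refine hv ((ind_iff q).1 hq v ?_ ?_)
  · have := congrFun hv2 0
    simpa [mat, Matrix.vecMul, dotProduct] using this
  · funext k
    have := congrFun hv2 k.succ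
    simpa [mat, Matrix.vecMul, dotProduct, Finset.sum_apply] using this

theorem vol_perm (q : Fin (m + 1) → (Fin m → ℝ)) (σ : Equiv.Perm (Fin (m + 1))) :
    |vol (fun i => q (σ i))| = |vol q| := by
  unfold vol
  have : mat (fun i => q (σ i)) = (mat q).submatrix σ id := rfl
  rw [this, Matrix.det_permute, abs_mul]
  rcases Int.units_eq_one_or (Equiv.Perm.sign σ) with h | h <;> simp [h]

theorem uni_of_vol {S : Finset (Fin m → ℝ)} (h : EqualVolumes S) : Unimodular S := by
  intro q hq hqS μ h1 hs i
  by_cases hi : μ i = 0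
  · right; left; exact hi
  · have h2 := h _ _ (ind_update hq h1 i hi) hq (fun k => by
      by_cases h' : k = i
      · subst h'; simpa using hs
      · simpa [h'] using hqS k) hqS
    rw [vol_update q h1, abs_mul] at h2
    have h3 : |μ i| = 1 := by
      have h4 := abs_pos.2 (vol_ne hq)
      exact mul_right_cancel₀ h4.ne' (by rw [h2, one_mul])
    rcases (abs_eq zero_le_one).1 h3 with h5 | h5
    · right; right; exact h5
    · left; exact h5

theorem vol_of_uni {S : Finset (Fin m → ℝ)} (h : Unimodular S) : EqualVolumes S := by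
  classical
  intro q q' hq hq' hqS hqS'
  have key : ∀ k : ℕ, k ≤ m + 1 → ∃ r : Fin (m + 1) → (Fin m → ℝ), AffineIndependent ℝ r ∧
      (∀ i, r i ∈ S) ∧ |vol r| = |vol q| ∧ ∀ i : Fin (m + 1), i.1 < k → r i = q' i := by
    intro k
    induction k with
    | zero => exact fun _ => ⟨q, hq, hqS, rfl, fun i hi => absurd hi (Nat.not_lt_zero _)⟩
    | succ k ih =>
      intro hk
      obtain ⟨r, hr, hrS, hv, hrq⟩ := ih (by omega)
      have hk' : k < m + 1 := by omega
      obtain ⟨μ, h1, h2⟩ := coords hr (q' ⟨k, hk'⟩)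
      have hj : ∃ j : Fin (m + 1), k ≤ j.1 ∧ μ j ≠ 0 := by
        by_contra hc
        push Not at hc
        have h3 := (ind_iff q').1 hq' (fun i => μ i - if i = ⟨k, hk'⟩ then 1 else 0) (by
          rw [sum_sub_distrib, h1, Finset.sum_ite_eq' univ, if_pos (mem_univ _), sub_self]) (by
          simp only [sub_smul, sum_sub_distrib, ite_smul, one_smul, zero_smul]
          rw [Finset.sum_ite_eq' univ, if_pos (mem_univ _), ← h2, sub_eq_zero]
          refine sum_congr rfl fun i _ => ?_
          by_cases hi : i.1 < k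
          · rw [hrq i hi]
          · rw [hc i (not_lt.1 hi), zero_smul, zero_smul])
        have h4 := congrFun h3 ⟨k, hk'⟩
        rw [if_pos rfl, hc ⟨k, hk'⟩ le_rfl] at h4
        norm_num at h4
      obtain ⟨j, hjk, hj⟩ := hj
      have hs : ∑ i, μ i • r i ∈ S := h2 ▸ hqS' _
      have hu := ind_update hr h1 j hj
      refine ⟨fun i => Function.update r j (∑ i, μ i • r i) (Equiv.swap j ⟨k, hk'⟩ i), ?_, ?_, ?_, ?_⟩
      · exact hu.comp_embedding (Equiv.swap j ⟨k, hk'⟩).toEmbedding
      · intro i
        beta_reduce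
        by_cases h' : Equiv.swap j ⟨k, hk'⟩ i = j
        · rw [h', Function.update_self]; exact hs
        · rw [Function.update_of_ne h']; exact hrS _
      · rw [vol_perm (Function.update r j (∑ i, μ i • r i)), vol_update r h1, abs_mul, hv]
        have h5 : |μ j| = 1 := by
          rcases h r hr hrS μ h1 hs j with h5 | h5 | h5
          · rw [h5]; norm_num
          · exact absurd h5 hj
          · rw [h5]; norm_num
        rw [h5, one_mul]
      · intro i hi
        beta_reduce
        by_cases hik : i = ⟨k, hk'⟩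
        · subst hik
          rw [Equiv.swap_apply_right, Function.update_self, h2]
        · have hik' : i.1 < k := by
            have : i.1 ≠ k := fun h' => hik (Fin.ext h')
            omega
          have hij : i ≠ j := fun h' => by rw [h'] at hik'; omega
          rw [Equiv.swap_apply_of_ne_of_ne hij hik, Function.update_of_ne hij]
          exact hrq i hik'
  obtain ⟨r, _, _, hv, hrq⟩ := key (m + 1) le_rfl
  have : r = q' := funext fun i => hrq i i.2
  rw [← hv, this]

theorem card_ge {S : Finset (Fin m → ℝ)} (hS : affineSpan ℝ (S : Set (Fin m → ℝ)) = ⊤) :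
    m + 1 ≤ S.card := by
  classical
  by_contra hc
  push Not at hc
  rcases Nat.eq_zero_or_pos S.card with h0 | h0
  · rw [card_eq_zero] at h0
    rw [h0, coe_empty, AffineSubspace.span_empty] at hS
    exact bot_ne_top hS
  · obtain ⟨n, hn⟩ : ∃ n, S.card = n + 1 := ⟨S.card - 1, by omega⟩
    have h1 := finrank_vectorSpan_image_finset_le ℝ (id : (Fin m → ℝ) → (Fin m → ℝ)) S hn
    rw [image_id, ← direction_affineSpan, hS, AffineSubspace.direction_top, finrank_top,
      Module.finrank_fin_fun] at h1
    omega

theorem exists_simplex {S : Finset (Fin m → ℝ)}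
    (hS : affineSpan ℝ (S : Set (Fin m → ℝ)) = ⊤) :
    ∃ q : Fin (m + 1) → (Fin m → ℝ), AffineIndependent ℝ q ∧ ∀ i, q i ∈ S := by
  obtain ⟨t, ht, hspan, hind⟩ := exists_affineIndependent ℝ (Fin m → ℝ) (S : Set (Fin m → ℝ))
  have hfin : t.Finite := S.finite_toSet.subset ht
  have := hfin.fintype
  have hcard : Fintype.card t = m + 1 := by
    have h := (hind.affineSpan_eq_top_iff_card_eq_finrank_add_one).1 (by
      rw [Subtype.range_coe, hspan, hS])
    rwa [Module.finrank_fin_fun] at h
  let e := (Fintype.equivFinOfCardEq hcard).symm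
  exact ⟨fun i => e i, hind.comp_embedding e.toEmbedding, fun i => ht (e i).2⟩

theorem two_more {S : Finset (Fin m → ℝ)} (hS : affineSpan ℝ (S : Set (Fin m → ℝ)) = ⊤)
    (hn : S.card = m + 2) : Unimodular S ↔ ∃ A B : Finset (Fin m → ℝ), A ⊆ S ∧ B ⊆ S ∧
      Disjoint A B ∧ A.Nonempty ∧ A.card = B.card ∧ ∑ a ∈ A, a = ∑ b ∈ B, b := by
  classical
  constructor
  · intro hU
    obtain ⟨q, hq, hqS⟩ := exists_simplex hS
    have hinj : Function.Injective q := hq.injective
    obtain ⟨s, hs, hsq⟩ : ∃ s ∈ S, s ∉ univ.image q := by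
      by_contra hc
      push Not at hc
      have h := card_le_card (show S ⊆ univ.image q from hc)
      rw [card_image_of_injective _ hinj, card_univ, Fintype.card_fin] at h
      omega
    obtain ⟨μ, h1, h2⟩ := coords hq s
    have h3 := hU q hq hqS μ h1 (h2 ▸ hs)
    have h4 : ∀ i, μ i = (if μ i = 1 then 1 else 0) - (if μ i = -1 then 1 else 0) := by
      intro i
      rcases h3 i with h | h | h <;> rw [h] <;> norm_num
    have hd : ∀ i, q i ≠ s := fun i h => hsq (h ▸ mem_image_of_mem q (mem_univ i))
    have hsA : s ∉ (univ.filter fun i => μ i = -1).image q := by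
      rw [mem_image]
      rintro ⟨i, _, hi⟩
      exact hd i hi
    refine ⟨insert s ((univ.filter fun i => μ i = -1).image q),
      (univ.filter fun i => μ i = 1).image q, ?_, ?_, ?_, insert_nonempty _ _, ?_, ?_⟩
    · exact insert_subset hs (image_subset_iff.2 fun i _ => hqS i)
    · exact image_subset_iff.2 fun i _ => hqS i
    · rw [disjoint_left]
      intro x hx hx'
      obtain ⟨i, hi, rfl⟩ := mem_image.1 hx'
      rcases mem_insert.1 hx with h | h
      · exact hd i h
      · obtain ⟨j, hj, hji⟩ := mem_image.1 h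
        have := hinj hji
        subst this
        have g1 := (mem_filter.1 hi).2
        have g2 := (mem_filter.1 hj).2
        rw [g1] at g2
        norm_num at g2
    · rw [card_insert_of_notMem hsA, card_image_of_injective _ hinj,
        card_image_of_injective _ hinj]
      have h5 : ((univ.filter fun i => μ i = 1).card : ℝ) -
          ((univ.filter fun i => μ i = -1).card : ℝ) = ∑ i, μ i := by
        conv_rhs => rw [sum_congr rfl fun i _ => h4 i]
        rw [sum_sub_distrib, ← sum_filter, ← sum_filter]
        simp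
      rw [h1] at h5
      have h6 : ((univ.filter fun i => μ i = -1).card : ℝ) + 1 =
          ((univ.filter fun i => μ i = 1).card : ℝ) := by linarith
      exact_mod_cast h6
    · rw [sum_insert hsA, sum_image fun a _ b _ h => hinj h, sum_image fun a _ b _ h => hinj h]
      have h5 : ∑ i ∈ univ.filter (fun i => μ i = 1), q i -
          ∑ i ∈ univ.filter (fun i => μ i = -1), q i = s := by
        rw [← h2]
        conv_rhs => rw [sum_congr rfl fun i _ => by rw [h4 i]]
        simp only [sub_smul, ite_smul, one_smul, zero_smul]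
        rw [sum_sub_distrib, ← sum_filter, ← sum_filter]
      rw [← h5]
      abel
  · rintro ⟨A, B, hA, hB, hAB, hne, hc, hsum⟩ q hq hqS μ h1 hs
    by_cases hsq : ∑ i, μ i • q i ∈ univ.image q
    · obtain ⟨k, _, hk⟩ := mem_image.1 hsq
      have h3 := (ind_iff q).1 hq (fun i => μ i - if i = k then 1 else 0) (by
          rw [sum_sub_distrib, h1, Finset.sum_ite_eq' univ, if_pos (mem_univ _), sub_self]) (by
          simp only [sub_smul, sum_sub_distrib, ite_smul, one_smul, zero_smul]
          rw [Finset.sum_ite_eq' univ, if_pos (mem_univ _), hk, sub_self])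
      intro i
      have h4 := congrFun h3 i
      by_cases hi : i = k
      · right; right
        rw [if_pos hi] at h4
        exact sub_eq_zero.1 h4
      · right; left
        rw [if_neg hi, sub_zero] at h4
        exact h4
    · have hSe : insert (∑ i, μ i • q i) (univ.image q) = S := by
        apply eq_of_subset_of_card_le
        · exact insert_subset hs (image_subset_iff.2 fun i _ => hqS i)
        · rw [card_insert_of_notMem hsq, card_image_of_injective _ hq.injective, card_univ,
            Fintype.card_fin, hn]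
      obtain ⟨lam, hlam⟩ : ∃ lam : (Fin m → ℝ) → ℝ, ∀ x, lam x =
        (if x ∈ A then 1 else 0) - (if x ∈ B then 1 else 0) := ⟨_, fun _ => rfl⟩
      have e1 : ∑ x ∈ S, lam x = 0 := by
        simp only [hlam, sum_sub_distrib]
        rw [sum_ite_mem, sum_ite_mem, inter_eq_right.2 hA, inter_eq_right.2 hB]
        simp [hc]
      have e2 : ∑ x ∈ S, lam x • x = 0 := by
        simp only [hlam, sub_smul, ite_smul, one_smul, zero_smul, sum_sub_distrib]
        rw [sum_ite_mem, sum_ite_mem, inter_eq_right.2 hA, inter_eq_right.2 hB, hsum, sub_self]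
      rw [← hSe, sum_insert hsq, sum_image fun a _ b _ h => hq.injective h] at e1 e2
      have h5 := (ind_iff q).1 hq (fun i => lam (q i) + lam (∑ i, μ i • q i) * μ i) (by
        rw [sum_add_distrib, ← mul_sum, h1, mul_one, add_comm]
        exact e1) (by
        simp only [add_smul, sum_add_distrib, mul_smul]
        rw [← smul_sum, add_comm]
        exact e2)
      have hls : lam (∑ i, μ i • q i) ≠ 0 := by
        intro h0
        obtain ⟨a, ha⟩ := hne
        have ha1 : lam a = 1 := by
          rw [hlam, if_pos ha, if_neg (disjoint_left.1 hAB ha), sub_zero]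
        have haS := hA ha
        rw [← hSe] at haS
        rcases mem_insert.1 haS with h | h
        · rw [← h, ha1] at h0
          norm_num at h0
        · obtain ⟨i, _, hi⟩ := mem_image.1 h
          have := congrFun h5 i
          rw [h0, zero_mul, add_zero, hi, ha1] at this
          norm_num at this
      have v : ∀ x, lam x = -1 ∨ lam x = 0 ∨ lam x = 1 := by
        intro x
        rw [hlam]
        by_cases hxA : x ∈ A <;> by_cases hxB : x ∈ B <;> simp [hxA, hxB]
      intro i
      have h6 : lam (q i) + lam (∑ i, μ i • q i) * μ i = 0 := congrFun h5 i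
      rcases v (∑ i, μ i • q i) with h | h | h
      · rw [h] at h6
        rcases v (q i) with h' | h' | h' <;> rw [h'] at h6
        · left; linarith
        · right; left; linarith
        · right; right; linarith
      · exact absurd h hls
      · rw [h] at h6
        rcases v (q i) with h' | h' | h' <;> rw [h'] at h6
        · right; right; linarith
        · right; left; linarith
        · left; linarith

/-- Let `S` be a finite set of points of `ℝ ^ m`, `m ≥ 1`, which is not contained in a hyperplane.
(1) All points of `S` have barycentric coordinates in `{-1, 0, 1}` with respect to every nondegenerate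
simplex with vertices in `S` if and only if all these simplices have the same volume.
(2) If this is so then `S` is admissible.
(3) If `|S| ≤ 2 m` the converse holds: `S` is admissible if and only if all nondegenerate simplices with
vertices in `S` have the same volume.
(4) If `m ≥ 2` and `|S| = m + 2` then `S` is admissible if and only if it contains two disjoint nonempty
sets with the same number of points and the same centroid. -/
theorem result :
    (∀ (m : ℕ) (S : Finset (Fin m → ℝ)), 1 ≤ m → affineSpan ℝ (S : Set (Fin m → ℝ)) = ⊤ →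
      (Unimodular S ↔ EqualVolumes S) ∧ (EqualVolumes S → Admissible S) ∧
      (S.card ≤ 2 * m → (Admissible S ↔ EqualVolumes S))) ∧
    (∀ (m : ℕ) (S : Finset (Fin m → ℝ)), 2 ≤ m → affineSpan ℝ (S : Set (Fin m → ℝ)) = ⊤ →
      S.card = m + 2 → (Admissible S ↔ ∃ A B : Finset (Fin m → ℝ), A ⊆ S ∧ B ⊆ S ∧
        Disjoint A B ∧ A.Nonempty ∧ A.card = B.card ∧ ∑ a ∈ A, a = ∑ b ∈ B, b)) := by
  refine ⟨fun m S hm hS => ⟨⟨vol_of_uni, uni_of_vol⟩, fun h => adm_of_uni hm (card_ge hS)
    (uni_of_vol h), fun hn => ⟨fun h => vol_of_uni (uni_of_adm hm hn h), fun h =>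
    adm_of_uni hm (card_ge hS) (uni_of_vol h)⟩⟩, fun m S hm hS hn => ?_⟩
  rw [← two_more hS hn]
  exact ⟨uni_of_adm (by omega) (by omega), adm_of_uni (by omega) (card_ge hS)⟩

end Pool.Agent.Results.MP_4c9d8f_co.UpToTwiceTheDimension
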